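import Mathlib

set_option autoImplicit false

namespace Pool.Agent.Results.MP_987215_an.BothFalse

open scoped Classical ComplexConjugate

/-- The nodal polynomial `f(z | Z) = ∏_{w ∈ Z} (z - w)` of a list of nodes with repetitions. -/
noncomputable def nodal (Z : Multiset ℂ) (z : ℂ) : ℂ := (Z.map (fun w => z - w)).prod

/-- The list `Z` is self-conjugate: a non-real `w` occurs as many times as its conjugate, and every
real number occurs an even number of times. -/
def SelfConj (Z : Multiset ℂ) : Prop :=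
  (∀ w : ℂ, w.im ≠ 0 → Z.count w = Z.count (conj w)) ∧ ∀ r : ℝ, Even (Z.count (r : ℂ))

/-- `g` is entire and `|g^(n)| ≤ 1` on the closed unit disc. -/
def InE (n : ℕ) (g : ℂ → ℂ) : Prop :=
  Differentiable ℂ g ∧ ∀ z : ℂ, ‖z‖ ≤ 1 → ‖iteratedDeriv n g z‖ ≤ 1

/-- `P` is the Hermite interpolant of `g` at the nodes `Z`: its degree is less than the number of
nodes, and `P^(i)(w) = g^(i)(w)` for each node `w` and each `i` less than its multiplicity. -/
def IsHermite (g : ℂ → ℂ) (Z : Multiset ℂ) (P : Polynomial ℂ) : Prop :=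
  P.degree < (Multiset.card Z : WithBot ℕ) ∧
    ∀ w ∈ Z, ∀ i < Z.count w, iteratedDeriv i (fun z => P.eval z) w = iteratedDeriv i g w

/-- the two nodes -/
noncomputable def nd (x y : ℝ) : ℂ := ⟨x, y⟩

/-- the function `z ^ 3 / 6` -/
noncomputable def gg (z : ℂ) : ℂ := z ^ 3 / 6

/-- the interpolant -/
noncomputable def PP (x y : ℝ) : Polynomial ℂ :=
  Polynomial.C (((3 * x ^ 2 - y ^ 2) / 6 : ℝ) : ℂ) * Polynomial.X
    + Polynomial.C ((-(x * (x ^ 2 + y ^ 2)) / 3 : ℝ) : ℂ)

theorem deriv_gg : deriv gg = fun z => z ^ 2 / 2 := by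
  funext z
  unfold gg
  rw [deriv_div_const, deriv_pow_field]
  push_cast
  ring

theorem deriv2_gg (z : ℂ) : iteratedDeriv 2 gg z = z := by
  rw [iteratedDeriv_succ, iteratedDeriv_one, deriv_gg, deriv_div_const, deriv_pow_field]
  push_cast
  ring

theorem gg_inE : InE 2 gg := by
  refine ⟨?_, ?_⟩
  · unfold gg; fun_prop
  · intro z hz
    rw [deriv2_gg]; exact hz

theorem nd_ne (x y : ℝ) (hy : y ≠ 0) : nd x y ≠ conj (nd x y) := by
  intro h
  have := congrArg Complex.im h
  simp only [nd, Complex.conj_im] at this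
  apply hy; linarith

theorem count_nd (x y : ℝ) (hy : y ≠ 0) (w : ℂ) :
    Multiset.count w ({nd x y, conj (nd x y)} : Multiset ℂ)
      = if w = nd x y ∨ w = conj (nd x y) then 1 else 0 := by
  have h := nd_ne x y hy
  have e : ({nd x y, conj (nd x y)} : Multiset ℂ) = nd x y ::ₘ {conj (nd x y)} := rfl
  rw [e, Multiset.count_cons, Multiset.count_singleton]
  by_cases h1 : w = nd x y
  · subst h1
    simp [h]
  · by_cases h2 : w = conj (nd x y)
    · subst h2
      simp [h1]
    · simp [h1, h2]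

theorem selfConj_nd (x y : ℝ) (hy : y ≠ 0) :
    SelfConj ({nd x y, conj (nd x y)} : Multiset ℂ) := by
  refine ⟨?_, ?_⟩
  · intro w _
    rw [count_nd x y hy, count_nd x y hy]
    have : (w = nd x y ∨ w = conj (nd x y)) ↔ (conj w = nd x y ∨ conj w = conj (nd x y)) := by
      constructor
      · rintro (h | h)
        · right; rw [h]
        · left; rw [h, Complex.conj_conj]
      · rintro (h | h)
        · right; rw [← h, Complex.conj_conj]
        · left; rw [← Complex.conj_conj w, h, Complex.conj_conj]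
    by_cases h : w = nd x y ∨ w = conj (nd x y)
    · rw [if_pos h, if_pos (this.mp h)]
    · rw [if_neg h, if_neg (fun h' => h (this.mpr h'))]
  · intro r
    rw [count_nd x y hy, if_neg]
    · exact Even.zero
    · rintro (h | h)
      · have := congrArg Complex.im h
        simp [nd] at this
        exact hy this.symm
      · have := congrArg Complex.im h
        simp [nd] at this
        exact hy this

theorem hermite_nd (x y : ℝ) (hy : y ≠ 0) :
    IsHermite gg ({nd x y, conj (nd x y)} : Multiset ℂ) (PP x y) := by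
  refine ⟨?_, ?_⟩
  · have : Multiset.card ({nd x y, conj (nd x y)} : Multiset ℂ) = 2 := rfl
    rw [this]
    unfold PP
    exact lt_of_le_of_lt Polynomial.degree_linear_le (by norm_num)
  · intro w hw i hi
    have hcount : Multiset.count w ({nd x y, conj (nd x y)} : Multiset ℂ) ≤ 1 := by
      rw [count_nd x y hy]
      split_ifs <;> omega
    have hi0 : i = 0 := by omega
    subst hi0
    simp only [iteratedDeriv_zero]
    have hw' : w = nd x y ∨ w = conj (nd x y) := by
      have e : ({nd x y, conj (nd x y)} : Multiset ℂ) = nd x y ::ₘ {conj (nd x y)} := rfl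
      rw [e, Multiset.mem_cons, Multiset.mem_singleton] at hw
      exact hw
    unfold PP gg
    simp only [Polynomial.eval_add, Polynomial.eval_mul, Polynomial.eval_C, Polynomial.eval_X]
    rcases hw' with rfl | rfl
    · apply Complex.ext
      · simp [nd, pow_succ]
        ring
      · simp [nd, pow_succ]
        ring
    · apply Complex.ext
      · simp [nd, pow_succ]
        ring
      · simp [nd, pow_succ]
        ring

theorem norm_nd (x y : ℝ) (h : x ^ 2 + y ^ 2 ≤ 1) :
    ∀ w ∈ ({nd x y, conj (nd x y)} : Multiset ℂ), ‖w‖ ≤ 1 := by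
  have h1 : ‖nd x y‖ ≤ 1 := by
    rw [← sq_le_one_iff₀ (norm_nonneg _), Complex.sq_norm, Complex.normSq_apply]
    simp only [nd]
    linarith
  intro w hw
  have e : ({nd x y, conj (nd x y)} : Multiset ℂ) = nd x y ::ₘ {conj (nd x y)} := rfl
  rw [e, Multiset.mem_cons, Multiset.mem_singleton] at hw
  rcases hw with rfl | rfl
  · exact h1
  · rw [Complex.norm_conj]; exact h1

theorem deriv_nodal (x y : ℝ) (e : ℂ) :
    iteratedDeriv 1 (nodal ({nd x y, conj (nd x y)} : Multiset ℂ)) e = 2 * e - 2 * x := by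
  have h : nodal ({nd x y, conj (nd x y)} : Multiset ℂ)
      = fun z => (z - nd x y) * (z - conj (nd x y)) := by
    funext z
    have e : ({nd x y, conj (nd x y)} : Multiset ℂ) = nd x y ::ₘ {conj (nd x y)} := rfl
    rw [nodal, e, Multiset.map_cons, Multiset.map_singleton, Multiset.prod_cons,
      Multiset.prod_singleton]
  rw [iteratedDeriv_one, h]
  have h1 : HasDerivAt (fun z : ℂ => (z - nd x y) * (z - conj (nd x y)))
      (1 * (e - conj (nd x y)) + (e - nd x y) * 1) e :=
    ((hasDerivAt_id e).sub_const _).mul ((hasDerivAt_id e).sub_const _)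
  rw [h1.deriv]
  apply Complex.ext
  · simp [nd]; ring
  · simp [nd]; ring

theorem deriv_PP (x y : ℝ) (e : ℂ) :
    iteratedDeriv 1 (fun z => (PP x y).eval z) e = (((3 * x ^ 2 - y ^ 2) / 6 : ℝ) : ℂ) := by
  rw [iteratedDeriv_one, Polynomial.deriv]
  unfold PP
  simp

/-- Both statements are false: there are a self-conjugate list of nodes in the closed disc, a
`g ∈ E_n` and its Hermite interpolant `P` whose error in the `k`-th derivative at `1` exceeds
`|f^(k)(1)| / n!`; and the same at the point `0`, for nodes with positive real parts. -/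
theorem result :
    (∃ (n k : ℕ) (Z : Multiset ℂ) (g : ℂ → ℂ) (P : Polynomial ℂ),
      1 ≤ n ∧ k + 1 ≤ n ∧ Multiset.card Z = n ∧ SelfConj Z ∧ (∀ w ∈ Z, ‖w‖ ≤ 1) ∧
      InE n g ∧ IsHermite g Z P ∧
      ‖iteratedDeriv k (nodal Z) 1‖ / (n.factorial : ℝ) <
        ‖iteratedDeriv k g 1 - iteratedDeriv k (fun z => P.eval z) 1‖) ∧
    (∃ (n k : ℕ) (Z : Multiset ℂ) (g : ℂ → ℂ) (P : Polynomial ℂ),
      1 ≤ n ∧ k + 1 ≤ n ∧ Multiset.card Z = n ∧ SelfConj Z ∧ (∀ w ∈ Z, ‖w‖ ≤ 1) ∧
      (∀ w ∈ Z, 0 < w.re) ∧ InE n g ∧ IsHermite g Z P ∧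
      ‖iteratedDeriv k (nodal Z) 0‖ / (n.factorial : ℝ) <
        ‖iteratedDeriv k g 0 - iteratedDeriv k (fun z => P.eval z) 0‖) := by
  refine ⟨⟨2, 1, {nd (4 / 5) (3 / 5), conj (nd (4 / 5) (3 / 5))}, gg, PP (4 / 5) (3 / 5),
    by norm_num, by norm_num, rfl, selfConj_nd _ _ (by norm_num), norm_nd _ _ (by norm_num),
    gg_inE, hermite_nd _ _ (by norm_num), ?_⟩,
    ⟨2, 1, {nd (1 / 10) (9 / 10), conj (nd (1 / 10) (9 / 10))}, gg, PP (1 / 10) (9 / 10),
    by norm_num, by norm_num, rfl, selfConj_nd _ _ (by norm_num), norm_nd _ _ (by norm_num),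
    ?_, gg_inE, hermite_nd _ _ (by norm_num), ?_⟩⟩
  · rw [deriv_nodal, deriv_PP, iteratedDeriv_one, deriv_gg]
    have h1 : (2 * 1 - 2 * ((4 / 5 : ℝ) : ℂ)) = ((2 / 5 : ℝ) : ℂ) := by push_cast; ring
    have h2 : ((1 : ℂ) ^ 2 / 2 - (((3 * (4 / 5 : ℝ) ^ 2 - (3 / 5 : ℝ) ^ 2) / 6 : ℝ) : ℂ))
        = ((6 / 25 : ℝ) : ℂ) := by push_cast; norm_num
    simp only [h1, h2, Complex.norm_real, Real.norm_eq_abs, Nat.factorial]
    norm_num [abs_of_pos]
  · intro w hw
    have e : ({nd (1 / 10) (9 / 10), conj (nd (1 / 10) (9 / 10))} : Multiset ℂ)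
        = nd (1 / 10) (9 / 10) ::ₘ {conj (nd (1 / 10) (9 / 10))} := rfl
    rw [e, Multiset.mem_cons, Multiset.mem_singleton] at hw
    rcases hw with rfl | rfl
    · simp [nd]
    · simp [nd]
  · rw [deriv_nodal, deriv_PP, iteratedDeriv_one, deriv_gg]
    have h1 : (2 * 0 - 2 * ((1 / 10 : ℝ) : ℂ)) = ((-1 / 5 : ℝ) : ℂ) := by push_cast; ring
    have h2 : ((0 : ℂ) ^ 2 / 2 - (((3 * (1 / 10 : ℝ) ^ 2 - (9 / 10 : ℝ) ^ 2) / 6 : ℝ) : ℂ))
        = ((13 / 100 : ℝ) : ℂ) := by push_cast; norm_num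
    simp only [h1, h2, Complex.norm_real, Real.norm_eq_abs, Nat.factorial]
    norm_num [abs_of_pos]

end Pool.Agent.Results.MP_987215_an.BothFalse
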